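import Pool.Agent.K1H41.DG.Conc2
import Pool.Agent.K1H41.DG.T_KO
import Pool.Agent.K1H41.DG.T_KAP
import Pool.Agent.K1H41.DG.T_JF
import Pool.Agent.K1H41.DG.T_JS
import Pool.Agent.K1H41.DG.T_DU
import Pool.Agent.K1H41.DG.T_CFG
import Pool.Agent.K1H41.DG.T_PDP
import Pool.Agent.K1H41.DG.T_SNJ

/-!
# The homotopy type of Stanley's complexes Delta_beta and Gamma_beta

For every integer matrix `Φ`, every `α` and every `β` in the coset `\bar E_Φ + E_{Φ,α}`, the
complex `Δ_β` is homotopy equivalent to the `(s - d)`-fold suspension of `Γ_β`.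

The definitions are in `Pool/Agent/K1H41/DG/Basic.lean` (suspensions,
cones, `CF`, `Delta`, `realization`, `crossSection`,
`polarDual`, `dualFace`, `Gamma`).

* `P = crossSection Φ l` is the section of the cone `C_Φ` by the hyperplane `l = 1`, assumed
  bounded; `x₀` is any point of its relative interior.
* `polarDual P x₀` is the polar dual of `P` with respect to `x₀`, taken in the direction space of
  `P`, and `dualFace P x₀ F = F^*`.
* `d - 1 = dim P`, `s` is the number of elements of `CF Φ`.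
* `suppFace F` is the support of each relative interior point of `F` (`suppFace_eq` below).
-/

namespace Pool.Agent.Results.MP_a2a0e0_co.HomotopyType

open Pool.Agent.K1H41.DG

/-- sanity check of a definition: `suppFace F` is the support of each relative interior point of
the face `F` of the section -/
theorem suppFace_eq {r n : ℕ} (Φ : Matrix (Fin r) (Fin n) ℤ)
    (l : EuclideanSpace ℝ (Fin n) →ₗ[ℝ] ℝ) (F : Set (EuclideanSpace ℝ (Fin n)))
    (hF : IsFace (crossSection Φ l) F) (x : EuclideanSpace ℝ (Fin n))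
    (hx : x ∈ intrinsicInterior ℝ F) : suppFace F = {j | 0 < x j} :=
  t_SUP n F (fun _ hy j => (hF.1.subset hy).1.1 j) x hx

/-- **Theorem.** `Δ_β` is homotopy equivalent to the `(s - d)`-fold suspension of `Γ_β`. -/
theorem result {r n : ℕ} (Φ : Matrix (Fin r) (Fin n) ℤ) (α : Fin r → ℤ)
    (l : EuclideanSpace ℝ (Fin n) →ₗ[ℝ] ℝ) (x₀ : EuclideanSpace ℝ (Fin n))
    (hbd : Bornology.IsBounded (crossSection Φ l))
    (hx₀ : x₀ ∈ intrinsicInterior ℝ (crossSection Φ l))
    (β : Fin n → ℤ) (hβ : β ∈ Coset Φ α) :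
    (CF Φ).Finite ∧
      Module.finrank ℝ (vectorSpan ℝ (crossSection Φ l)) + 1 ≤ (CF Φ).ncard ∧
      Nonempty (ContinuousMap.HomotopyEquiv (realization (Delta Φ β))
        (iterSusp ((CF Φ).ncard - (Module.finrank ℝ (vectorSpan ℝ (crossSection Φ l)) + 1))
          (TopCat.of (Gamma (crossSection Φ l) x₀ β)))) :=
  main_of t_KO (t_P2 t_CE t_KAP) t_JF t_JS t_DU t_JC t_CFG t_POS t_DIM t_PCO t_NEG
    r n Φ α l x₀ hbd hx₀ β hβ

end Pool.Agent.Results.MP_a2a0e0_co.HomotopyType
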